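import Pool.Agent.TH446.IM.Min

/-!
MP_911cfd_co: the Lescure–Meyniel conjecture for graphs with few non-neighbours per vertex (with
strong immersions whose paths have length at most two), and the density of smallest
counterexamples.
-/

set_option autoImplicit false

namespace Pool.Agent.Results.MP_911cfd_co.FewNonNeighbours

/-- `G` contains a weak immersion of `K_r`: there are `r` distinct branch vertices and, for any two
of them, a path joining them, the paths for different pairs having no common edge. -/
def HasImmersion {V : Type} (G : SimpleGraph V) (r : ℕ) : Prop :=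
  ∃ f : Fin r ↪ V, ∃ p : ∀ i j : Fin r, G.Walk (f i) (f j),
    (∀ i j : Fin r, i < j → (p i j).IsPath) ∧
    ∀ i j k l : Fin r, i < j → k < l → (i ≠ k ∨ j ≠ l) →
      ∀ e ∈ (p i j).edges, e ∉ (p k l).edges

/-- `G` contains a strong immersion of `K_r` with paths of length at most two: moreover all the
paths have length at most two and no inner branch vertices. -/
def HasStrongImmersion {V : Type} (G : SimpleGraph V) (r : ℕ) : Prop :=
  ∃ f : Fin r ↪ V, ∃ p : ∀ i j : Fin r, G.Walk (f i) (f j),
    (∀ i j : Fin r, i < j → (p i j).IsPath ∧ (p i j).length ≤ 2 ∧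
      ∀ x ∈ (p i j).support, x = f i ∨ x = f j ∨ ∀ k, x ≠ f k) ∧
    ∀ i j k l : Fin r, i < j → k < l → (i ≠ k ∨ j ≠ l) →
      ∀ e ∈ (p i j).edges, e ∉ (p k l).edges

/-- Q1 holds for `G`: if `G` is not `k`-colourable then it contains a weak immersion of
`K_{k+1}`. -/
def LescureMeyniel {V : Type} (G : SimpleGraph V) : Prop :=
  ∀ k : ℕ, ¬ G.Colorable k → HasImmersion G (k + 1)

/-- The set of non-neighbours of `x` (without `x` itself). -/
def NonNbr {V : Type} (G : SimpleGraph V) (x : V) : Set V := {y | x ≠ y ∧ ¬ G.Adj x y}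

/-- Let `G` be a graph on `n` vertices.
(1) If at least `t` vertices have at most `D` non-neighbours each and `t + 2 D ≤ n + 1`, then `G`
has a strong immersion of `K_t`.
(2) If every vertex has at most `D ≥ 1` non-neighbours, at least `4 D ^ 2` vertices have a
non-neighbour and `G` is not `k`-colourable, then `G` has a strong immersion of `K_{k+1}`.
(3) If `G` is vertex-critical (not `k`-colourable, but `k`-colourable after the removal of any
vertex), every vertex has at most `D ≥ 1` non-neighbours, `m` vertices have one and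
`8 D ≤ m + 4`, then `G` has a strong immersion of `K_{k+1}`,
(4) and also if `G` is vertex-critical, its complement is connected and at least `(n + 1) / 2`
vertices have at most `D` non-neighbours, where `4 D ≤ n + 1`.
(5) If Q1 fails for `G`, then it fails for an induced subgraph on `u` vertices in which, for all
`D ≤ (u + 1) / 4`, fewer than `(u + 1) / 2` vertices have at most `D` non-neighbours, and in which
at least `u (u + 2) / 16` pairs of vertices are not adjacent. -/
theorem result :
    (∀ (V : Type) [Fintype V] (G : SimpleGraph V) (D t : ℕ),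
      t ≤ {x : V | (NonNbr G x).ncard ≤ D}.ncard → t + 2 * D ≤ Fintype.card V + 1 →
      HasStrongImmersion G t) ∧
    (∀ (V : Type) [Fintype V] (G : SimpleGraph V) (D k : ℕ), 1 ≤ D →
      (∀ x : V, (NonNbr G x).ncard ≤ D) →
      4 * D ^ 2 ≤ {x : V | (NonNbr G x).Nonempty}.ncard → ¬ G.Colorable k →
      HasStrongImmersion G (k + 1)) ∧
    (∀ (V : Type) [Fintype V] (G : SimpleGraph V) (D k : ℕ), 1 ≤ D →
      (∀ x : V, (NonNbr G x).ncard ≤ D) →
      8 * D ≤ {x : V | (NonNbr G x).Nonempty}.ncard + 4 →
      (∀ v : V, (G.induce {v}ᶜ).Colorable k) → ¬ G.Colorable k →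
      HasStrongImmersion G (k + 1)) ∧
    (∀ (V : Type) [Fintype V] (G : SimpleGraph V) (D k : ℕ), Gᶜ.Connected →
      Fintype.card V + 1 ≤ 2 * {x : V | (NonNbr G x).ncard ≤ D}.ncard →
      4 * D ≤ Fintype.card V + 1 →
      (∀ v : V, (G.induce {v}ᶜ).Colorable k) → ¬ G.Colorable k →
      HasStrongImmersion G (k + 1)) ∧
    (∀ (V : Type) [Fintype V] (G : SimpleGraph V), ¬ LescureMeyniel G →
      ∃ U : Set V, ¬ LescureMeyniel (G.induce U) ∧
        (∀ D : ℕ, 4 * D ≤ U.ncard + 1 →
          2 * {x : U | (NonNbr (G.induce U) x).ncard ≤ D}.ncard < U.ncard + 1) ∧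
        U.ncard * (U.ncard + 2) ≤ 16 * ((G.induce U)ᶜ.edgeSet).ncard) := by
  have hnd : ∀ (V : Type) (G : SimpleGraph V) (x : V),
      Pool.Agent.W292.RG.ndeg G x = (NonNbr G x).ncard := by
    intro V G x
    have : {y | Gᶜ.Adj x y} = NonNbr G x := by
      ext y
      exact SimpleGraph.compl_adj G x y
    unfold Pool.Agent.W292.RG.ndeg
    rw [this]
  have hset : ∀ (V : Type) [Fintype V] (G : SimpleGraph V) (D : ℕ), ∃ L : Finset V,
      (∀ x ∈ L, Pool.Agent.W292.RG.ndeg G x ≤ D) ∧
      L.card = {x : V | (NonNbr G x).ncard ≤ D}.ncard := by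
    classical
    intro V _ G D
    refine ⟨{x : V | (NonNbr G x).ncard ≤ D}.toFinset, ?_, ?_⟩
    · intro x hx
      rw [Set.mem_toFinset] at hx
      rw [hnd]
      exact hx
    · rw [← Set.ncard_eq_toFinset_card']
  refine ⟨?_, ?_, ?_, ?_, ?_⟩
  · intro V _ G D t hL ht
    obtain ⟨L, h1, h2⟩ := hset V G D
    exact Pool.Agent.TH446.IM.imm_of_low G D t L h1 (by rw [h2]; exact hL) ht
  · intro V _ G D k h1 hD hm hk
    exact Pool.Agent.TH446.IM.lm_many G D h1 (fun x => by rw [hnd]; exact hD x) hm k hk
  · intro V _ G D k h1 hD hm hcol hk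
    exact Pool.Agent.TH446.IM.lm_crit G D h1 (fun x => by rw [hnd]; exact hD x) hm k hcol hk
  · intro V _ G D k hconn hL hm hcol hk
    obtain ⟨L, h1, h2⟩ := hset V G D
    exact Pool.Agent.TH446.IM.lm_conn G D L h1 (by rw [h2]; exact hL) hconn hm k hcol hk
  · intro V _ G h
    obtain ⟨U, h1, h2, h3⟩ := Pool.Agent.TH446.IM.local_lm G h
    refine ⟨U, h1, ?_, h3⟩
    intro D hD
    have := h2 D hD
    simpa only [hnd] using this

end Pool.Agent.Results.MP_911cfd_co.FewNonNeighbours
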