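import Pool.Agent.TH702.SG.Imm

/-!
# Strong immersions of complete graphs in Kneser, Schrijver and stable Kneser graphs

For `s ≥ 2`, `k ≥ 1` and `n ≥ s k`, colour an `s`-stable `k`-subset of the `n`-cycle by its
largest element `m`; this is a proper colouring with the `n - s(k-1)` colours
`m = s(k-1), …, n-1`.  We give one vertex of each colour, namely `B_m = {m-s(k-1), …, m-s, m}` for
`m < s k` and `B_m = {s-1, 2s-1, …, (k-1)s-1, m}` for `m ≥ s k`, and join `B_m` to `B_{m'}`,
`m < m'`, by a path of the interlacing graph all of whose vertices have colour `m` or `m'`.  Such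
paths have no edge in common for different pairs, and no vertex in common for disjoint pairs.
-/

namespace Pool.Agent.Results.MP_911cfd_co.StableKneser

open Pool.Agent.TH702.SG

lemma between {s n k : ℕ} (hs : 2 ≤ s) (hk : 1 ≤ k) (hn : s * k ≤ n) {V : Type*}
    (G : SimpleGraph V) (hG : (interlacingGraph s n k).IsContained G)
    (hor : Nonempty (G →g pathStableKneserGraph s n k) ∨
      (s = 2 ∧ Nonempty (G →g kneserGraph n k))) (r : ℕ) (hr : G.chromaticNumber = (r : ℕ∞)) :
    HasLinkedSystem G r := by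
  have hc : G.Colorable (n - s * (k - 1)) := by
    rcases hor with ⟨⟨g⟩⟩ | ⟨rfl, ⟨g⟩⟩
    · exact (pathStable_colorable hk hn).of_hom g
    · exact (kneser_colorable hk hn).of_hom g
  have hle := hc.chromaticNumber_le
  rw [hr] at hle
  exact ((interlacing_linked hs hk hn).of_isContained hG).mono (by exact_mod_cast hle)

lemma contained_stable (s n k : ℕ) :
    (interlacingGraph s n k).IsContained (stableKneserGraph s n k) :=
  ⟨⟨⟨fun X => X, fun {_ _} h => ⟨h.1, h.2.1⟩⟩, fun _ _ h => h⟩⟩

lemma contained_pathStable (s n k : ℕ) :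
    (interlacingGraph s n k).IsContained (pathStableKneserGraph s n k) :=
  ⟨⟨⟨fun X => ⟨X.1, X.2.1, X.2.2.1, fun x hx y hy h => (X.2.2.2 x hx y hy h).1⟩,
    fun {_ _} h => ⟨fun he => h.1 (Subtype.ext (Subtype.mk.inj he)), h.2.1⟩⟩,
    fun _ _ h => Subtype.ext (Subtype.mk.inj h)⟩⟩

lemma contained_kneser (s n k : ℕ) :
    (interlacingGraph s n k).IsContained (kneserGraph n k) :=
  ⟨⟨⟨fun X => ⟨X.1, X.2.1, X.2.2.1⟩,
    fun {_ _} h => ⟨fun he => h.1 (Subtype.ext (Subtype.mk.inj he)), h.2.1⟩⟩,
    fun _ _ h => Subtype.ext (Subtype.mk.inj h)⟩⟩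

def stableToPath (s n k : ℕ) : stableKneserGraph s n k →g pathStableKneserGraph s n k :=
  ⟨fun X => ⟨X.1, X.2.1, X.2.2.1, fun x hx y hy h => (X.2.2.2 x hx y hy h).1⟩,
    fun {_ _} h => ⟨fun he => h.1 (Subtype.ext (Subtype.mk.inj he)), h.2⟩⟩

universe u

/-- Let `s ≥ 2`, `k ≥ 1`, `n ≥ s k`.

(1) Every graph `G` that contains the interlacing graph of the `s`-stable `k`-subsets of the
`n`-cycle has a linked system of order `n - s(k-1)`, in particular a strong immersion of the
complete graph on `n - s(k-1)` vertices.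

(2) If moreover `G` has a homomorphism to the almost `s`-stable Kneser graph, or `s = 2` and `G`
has a homomorphism to the Kneser graph `KG(n,k)`, and `χ(G) = r`, then `G` has a linked system of
order `r`.

(3) In particular this holds for the `s`-stable Kneser graph (the Schrijver graph `SG(n,k)` for
`s = 2`), for the almost `s`-stable Kneser graph and, for `s = 2`, for the Kneser graph. -/
theorem result (s n k : ℕ) (hs : 2 ≤ s) (hk : 1 ≤ k) (hn : s * k ≤ n) :
    (∀ (V : Type u) (G : SimpleGraph V), (interlacingGraph s n k).IsContained G →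
      HasLinkedSystem G (n - s * (k - 1))) ∧
    (∀ (V : Type u) (G : SimpleGraph V), (interlacingGraph s n k).IsContained G →
      (Nonempty (G →g pathStableKneserGraph s n k) ∨
        (s = 2 ∧ Nonempty (G →g kneserGraph n k))) →
      ∀ r : ℕ, G.chromaticNumber = (r : ℕ∞) → HasLinkedSystem G r) ∧
    (∀ r : ℕ, (stableKneserGraph s n k).chromaticNumber = (r : ℕ∞) →
      HasLinkedSystem (stableKneserGraph s n k) r) ∧
    (∀ r : ℕ, (pathStableKneserGraph s n k).chromaticNumber = (r : ℕ∞) →
      HasLinkedSystem (pathStableKneserGraph s n k) r) ∧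
    (s = 2 → ∀ r : ℕ, (kneserGraph n k).chromaticNumber = (r : ℕ∞) →
      HasLinkedSystem (kneserGraph n k) r) :=
  ⟨fun _ _ hG => (interlacing_linked hs hk hn).of_isContained hG,
    fun _ G hG hor => between hs hk hn G hG hor,
    between hs hk hn _ (contained_stable s n k) (Or.inl ⟨stableToPath s n k⟩),
    between hs hk hn _ (contained_pathStable s n k) (Or.inl ⟨SimpleGraph.Hom.id⟩),
    fun h2 => between hs hk hn _ (contained_kneser s n k) (Or.inr ⟨h2, ⟨SimpleGraph.Hom.id⟩⟩)⟩

end Pool.Agent.Results.MP_911cfd_co.StableKneser
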